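import Pool.Agent.Lib.MP_21a4ea_an.Lower
import Pool.Agent.Lib.MP_21a4ea_an.Upper

open Pool.Agent.Lib.MP_21a4ea_an

theorem Pool.Agent.Results.MP_21a4ea_an.OptimalOrder.result (K : Type) [RCLike K] (r α : ℝ)
    (hr : 1 < r) : ∃ c C : ℝ, 0 < c ∧ 0 < C ∧ ∀ m : ℕ, 16 ≤ m →
      ENNReal.ofReal (c * ((m : ℝ) ^ (-r) * Real.log m)) ≤ kappa K r α m ∧
      kappa K r α m ≤ ENNReal.ofReal (C * ((m : ℝ) ^ (-r) * Real.log m)) := by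
  obtain ⟨c, hc, h1⟩ := lower K hr α
  obtain ⟨C, hC, h2⟩ := upper K hr α
  exact ⟨c, C, hc, hC, fun m hm => ⟨h1 m (by omega), h2 m hm⟩⟩
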